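import Pool.Agent.U1.HM
import Pool.Agent.Y503.RB.ConvSurf

/-!
The mean curvature of compact surfaces in hyperbolic four-space (ball model).
-/

set_option autoImplicit false

namespace Pool.Agent.U987.HS

open scoped ContDiff RealInnerProductSpace ENNReal NNReal Topology
open MeasureTheory Set Metric Filter
open Pool.Agent.Y503.RB Pool.Agent.U1.HM

/-- Countable families of parametrised pieces `φ i '' A i` of the surface `F` which cover the part of
`F` in the open ball. -/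
structure Pieces (F : Set E4) (φ : ℕ → ℂ → E4) (U A : ℕ → Set ℂ) : Prop where
  patch : ∀ i, Patch (φ i) (U i)
  sub : ∀ i, φ i '' U i ⊆ F
  meas : ∀ i, MeasurableSet (A i)
  le : ∀ i, A i ⊆ U i
  cover : F ∩ ball 0 1 ⊆ ⋃ i, φ i '' A i

/-- Density of the excess of the mean curvature: `exp (3 r) * ((|H| - 1)_+)²` times the density of the
hyperbolic area, `r` the hyperbolic distance from the origin, `exp r = (1 + |φ|) / (1 - |φ|)`. -/
noncomputable def excAt (φ : ℂ → E4) (z : ℂ) : ℝ≥0∞ :=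
  ENNReal.ofReal
    (((1 + ‖φ z‖) / (1 - ‖φ z‖)) ^ 3 * (max (‖hypMean φ z‖ - 1) 0) ^ 2 * hypArea φ z)

/-- Density of the directed excess: the integral over the circle of unit normal vectors `n` at `φ z`
of `P ^ 3 * ((H·n - 1)_+)²`, `P = pois (φ z) n`, times the density of the hyperbolic area. (All `L` in
the supremum give the same value.) -/
noncomputable def dirAt (φ : ℂ → E4) (z : ℂ) : ℝ≥0∞ :=
  ⨆ (L : ℂ →ₗᵢ[ℝ] E4) (_ : ∀ w v : ℂ, ⟪L w, d1 φ v z⟫ = 0),
    ∫⁻ θ in Ico 0 (2 * Real.pi), ENNReal.ofReal (densH φ (L ⟨Real.cos θ, Real.sin θ⟩) z)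

/-- The excess of the surface `F`: the integral over `F` of `exp (3 r) * ((|H| - 1)_+)²` (hyperbolic
area; infimum over the families of pieces which cover `F`). -/
noncomputable def excessS (F : Set E4) : ℝ≥0∞ :=
  ⨅ (φ : ℕ → ℂ → E4) (U : ℕ → Set ℂ) (A : ℕ → Set ℂ) (_ : Pieces F φ U A),
    ∑' i, ∫⁻ z in A i, excAt (φ i) z

/-- The directed excess of the surface `F`. -/
noncomputable def excessDirS (F : Set E4) : ℝ≥0∞ :=
  ⨅ (φ : ℕ → ℂ → E4) (U : ℕ → Set ℂ) (A : ℕ → Set ℂ) (_ : Pieces F φ U A),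
    ∑' i, ∫⁻ z in A i, dirAt (φ i) z

theorem curvAt_le {φ : ℂ → E4} {z : ℂ} (hi : Function.Injective (fderiv ℝ φ z)) (hp : ‖φ z‖ < 1) :
    curvAt φ z ≤ dirAt φ z := by
  unfold curvAt dirAt
  refine iSup₂_mono fun L hL => ?_
  refine lintegral_mono fun θ => ENNReal.ofReal_le_ofReal ?_
  exact dens_le_densH hi hp (unitL L θ) (hL _)

theorem dirAt_le {φ : ℂ → E4} {z : ℂ} (hp : ‖φ z‖ < 1) :
    dirAt φ z ≤ ENNReal.ofReal (Real.pi / 2) * excAt φ z :=
  iSup₂_le fun L _ => dir_point hp L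

theorem total_le (F : Set E4) : totalCurv F ≤ excessDirS F := by
  unfold excessDirS
  refine le_iInf fun φ => le_iInf fun U => le_iInf fun A => le_iInf fun h => ?_
  unfold totalCurv
  refine iInf_le_of_le φ (iInf_le_of_le U (iInf_le_of_le A (iInf_le_of_le
    ⟨fun i => ⟨h.patch i, h.sub i, h.meas i, h.le i⟩, h.cover⟩ ?_)))
  refine ENNReal.tsum_le_tsum fun i => ?_
  refine setLIntegral_mono' (h.meas i) fun z hz => ?_
  exact curvAt_le ((h.patch i).imm z (h.le i hz)) ((h.patch i).inside z (h.le i hz))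

theorem dirS_le (F : Set E4) : excessDirS F ≤ ENNReal.ofReal (Real.pi / 2) * excessS F := by
  have hpi : ENNReal.ofReal (Real.pi / 2) ≠ 0 := by
    rw [Ne, ENNReal.ofReal_eq_zero, not_le]
    positivity
  rw [mul_comm, ← ENNReal.div_le_iff hpi ENNReal.ofReal_ne_top]
  unfold excessS
  refine le_iInf fun φ => le_iInf fun U => le_iInf fun A => le_iInf fun h => ?_
  rw [ENNReal.div_le_iff hpi ENNReal.ofReal_ne_top, mul_comm]
  unfold excessDirS
  refine iInf_le_of_le φ (iInf_le_of_le U (iInf_le_of_le A (iInf_le_of_le h ?_)))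
  rw [← ENNReal.tsum_mul_left]
  refine ENNReal.tsum_le_tsum fun i => ?_
  rw [← lintegral_const_mul' _ _ ENNReal.ofReal_ne_top]
  refine setLIntegral_mono' (h.meas i) fun z hz => ?_
  exact dirAt_le ((h.patch i).inside z (h.le i hz))

/-- There are families of pieces. -/
theorem exists_pieces {F : Set E4} (hF : PSurf F) :
    ∃ (φ : ℕ → ℂ → E4) (U : ℕ → Set ℂ), Pieces F φ U U := by
  classical
  have hloc : ∀ p ∈ F ∩ ball 0 1, ∃ (φ : ℂ → E4) (U : Set ℂ) (V : Set E4), Patch φ U ∧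
      φ '' U ⊆ F ∧ IsOpen V ∧ p ∈ V ∧ F ∩ V ⊆ φ '' U := by
    rintro p ⟨hp, hp1⟩
    obtain ⟨φ, U, V, hB, hV, hpV, hFV⟩ := hF.loc p hp
    have hc : ContinuousOn φ U := hB.smooth.continuousOn
    have hO : IsOpen (U ∩ φ ⁻¹' ball 0 1) := hc.isOpen_inter_preimage hB.isOpen isOpen_ball
    refine ⟨φ, U ∩ φ ⁻¹' ball 0 1, V ∩ ball 0 1, ⟨hO, hB.smooth.mono inter_subset_left,
      fun z hz => hB.imm z hz.1, fun z hz => by simpa using hz.2⟩, ?_, hV.inter isOpen_ball,
      ⟨hpV, hp1⟩, ?_⟩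
    · rintro x ⟨z, ⟨hz, hz1⟩, rfl⟩
      have : φ z ∈ φ '' U ∩ closedBall 0 1 := ⟨⟨z, hz, rfl⟩, ball_subset_closedBall hz1⟩
      rw [← hFV] at this
      exact this.1
    · rintro x ⟨hx, hxV, hx1⟩
      have : x ∈ φ '' U ∩ closedBall 0 1 := by
        rw [← hFV]
        exact ⟨hx, hxV⟩
      obtain ⟨⟨z, hz, rfl⟩, -⟩ := this
      exact ⟨z, ⟨hz, hx1⟩, rfl⟩
  choose! φ U V hP hsub hVo hpV hFV using hloc
  obtain ⟨t, htR, htc, htU⟩ := TopologicalSpace.countable_cover_nhdsWithin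
    (f := V) (s := F ∩ ball 0 1)
    (fun x hx => mem_nhdsWithin_of_mem_nhds ((hVo x hx).mem_nhds (hpV x hx)))
  rcases t.eq_empty_or_nonempty with he | hne
  · refine ⟨fun _ _ => 0, fun _ => ∅, fun _ => ⟨isOpen_empty, contDiffOn_empty,
      fun z hz => absurd hz (notMem_empty z), fun z hz => absurd hz (notMem_empty z)⟩,
      fun _ => by simp, fun _ => MeasurableSet.empty, fun _ => subset_rfl, ?_⟩
    rw [he] at htU
    intro x hx
    simpa using htU hx
  · obtain ⟨f, hf⟩ := htc.exists_eq_range hne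
    have hfR : ∀ i, f i ∈ F ∩ ball 0 1 := fun i => htR (by rw [hf]; exact mem_range_self i)
    refine ⟨fun i => φ (f i), fun i => U (f i), fun i => hP _ (hfR i), fun i => hsub _ (hfR i),
      fun i => (hP _ (hfR i)).isOpen.measurableSet, fun i => subset_rfl, ?_⟩
    intro x hx
    obtain ⟨y, hy, hxy⟩ := mem_iUnion₂.mp (htU hx)
    rw [hf] at hy
    obtain ⟨i, rfl⟩ := hy
    exact mem_iUnion.mpr ⟨i, hFV _ (hfR i) ⟨hx.1, hxy⟩⟩

/-- The mean curvature of the surface `F` in hyperbolic space is at most one. -/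
def MeanLeOne (F : Set E4) : Prop :=
  ∀ (φ : ℂ → E4) (U : Set ℂ), Patch φ U → φ '' U ⊆ F → ∀ z ∈ U, ‖hypMean φ z‖ ≤ 1

theorem excessS_zero {F : Set E4} (hF : PSurf F) (h1 : MeanLeOne F) : excessS F = 0 := by
  obtain ⟨φ, U, h⟩ := exists_pieces hF
  refine le_antisymm ?_ bot_le
  unfold excessS
  refine iInf_le_of_le φ (iInf_le_of_le U (iInf_le_of_le U (iInf_le_of_le h ?_)))
  refine le_of_eq ?_
  have h0 : ∀ i, ∫⁻ z in U i, excAt (φ i) z = 0 := by
    intro i
    refine (setLIntegral_congr_fun (g := fun _ => 0) (h.meas i) ?_).trans (by simp)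
    intro z hz
    have := h1 (φ i) (U i) (h.patch i) (h.sub i) z hz
    simp only [excAt]
    rw [max_eq_right (by linarith)]
    simp
  simp [h0]

theorem lt_of_excess {F : Set E4} {m : ℕ}
    (h : excessDirS F < ENNReal.ofReal (2 * Real.pi ^ 2 * (m + 1)) ∨
      excessS F < ENNReal.ofReal (4 * Real.pi * (m + 1))) :
    totalCurv F < ENNReal.ofReal (2 * Real.pi ^ 2 * (m + 1)) := by
  refine (total_le F).trans_lt ?_
  rcases h with h | h
  · exact h
  · refine (dirS_le F).trans_lt ?_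
    have hpi := Real.pi_pos
    have e : ENNReal.ofReal (2 * Real.pi ^ 2 * (m + 1)) =
        ENNReal.ofReal (Real.pi / 2) * ENNReal.ofReal (4 * Real.pi * (m + 1)) := by
      rw [← ENNReal.ofReal_mul (by positivity)]
      congr 1
      ring
    rw [e]
    refine (ENNReal.mul_lt_mul_iff_right ?_ ENNReal.ofReal_ne_top).2 h
    rw [Ne, ENNReal.ofReal_eq_zero, not_le]
    positivity

end Pool.Agent.U987.HS
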